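import Pool.Agent.TH447.DG.Asym

set_option autoImplicit false

/-!
# MP_4146e4_co: the case `r = 3`, for chromatic number at least `δ d`
-/

namespace Pool.Agent.Results.MP_4146e4_co.TriangleFreeHighDegree

/-- For every `δ > 0` there is `c > 0` such that for all large `d`, every finite triangle-free
`d`-degenerate graph which is not colourable with `k ≤ δ d` colours has a vertex of degree larger
than `e^{c d}`, and hence more than `e^{c d}` vertices. With `δ < 1` this contains the case `r = 3`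
of Q1, in which the chromatic number is `d + 1`. -/
theorem result :
    ∀ δ : ℝ, 0 < δ → ∃ c : ℝ, 0 < c ∧ ∃ d₀ : ℕ, ∀ d : ℕ, d₀ ≤ d →
      ∀ (V : Type) [Fintype V] (G : SimpleGraph V),
        G.CliqueFree 3 →
        (∀ s : Set V, s.Nonempty → ∃ v ∈ s, (G.neighborSet v ∩ s).ncard ≤ d) →
        (∀ k : ℕ, (k : ℝ) ≤ δ * d → ¬ G.Colorable k) →
        (∃ v : V, Real.exp (c * (d : ℝ)) < ((G.neighborSet v).ncard : ℝ)) ∧
          Real.exp (c * (d : ℝ)) < (Fintype.card V : ℝ) := by
  intro δ hδ
  obtain ⟨c, hc, d₀, h⟩ := Pool.Agent.TH447.DG.asym_linear δ hδ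
  refine ⟨c, hc, d₀, fun d hd V _ G htri hdeg hcol => ?_⟩
  have key : ∃ v : V, Real.exp (c * (d : ℝ)) < ((G.neighborSet v).ncard : ℝ) := by
    by_contra hcon
    push Not at hcon
    obtain ⟨n, hn, hn'⟩ := h d hd V G htri
      (fun S hS => by
        obtain ⟨v, hv, hv'⟩ := hdeg (S : Set V) (by simpa using hS)
        exact ⟨v, by simpa using hv, hv'⟩) hcon
    exact hcol n hn' hn
  refine ⟨key, ?_⟩
  obtain ⟨v, hv⟩ := key
  refine hv.trans_le ?_
  have h1 : (G.neighborSet v).ncard ≤ Fintype.card V := by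
    rw [← Nat.card_eq_fintype_card, ← Set.ncard_univ]
    exact Set.ncard_le_ncard (Set.subset_univ _) (Set.toFinite _)
  exact_mod_cast h1

end Pool.Agent.Results.MP_4146e4_co.TriangleFreeHighDegree
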